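import Pool.Agent.helper55.NK.Spec

/-! Row `nk:MO2` (MP_7e34bc_co). -/

set_option autoImplicit false

namespace Pool.Agent.helper61.NK

open Pool.Agent.NK Finset

theorem MO2_eq (i j w : ℝ) (hi : 2 ≤ i) (hj : 2 ≤ j) (hw : 9 ≤ w) :
    r2 i j w = (i * w / (i * w + 1)) * ((j * w - 1) / (w * (j + 1))) *
      (((i - 1) * w / (i * w + 2)) * ((j * w - 2) / (w * (j + 2)))) := by
  have hw0 : (0 : ℝ) < w := by linarith
  have hiw : 0 < i * w := mul_pos (by linarith) hw0
  have h1 : i * w + 1 ≠ 0 := by positivity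
  have h2 : i * w + 2 ≠ 0 := by positivity
  have h3 : j + 1 ≠ 0 := by linarith
  have h4 : j + 2 ≠ 0 := by linarith
  unfold r2
  field_simp

theorem MO2 : MO2_stmt := by
  intro i j w i' j' w' hi hj hw hii hjj hww
  have hw0 : (0 : ℝ) < w := by linarith
  have hw0' : (0 : ℝ) < w' := by linarith
  have hi0 : (0 : ℝ) < i := by linarith
  have hi0' : (0 : ℝ) < i' := by linarith
  have hj0 : (0 : ℝ) < j := by linarith
  have hj0' : (0 : ℝ) < j' := by linarith
  rw [MO2_eq i j w hi hj hw, MO2_eq i' j' w' (by linarith) (by linarith) (by linarith)]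
  have hiw : i * w ≤ i' * w' := mul_le_mul hii hww hw0.le hi0'.le
  have hjw : j * w ≤ j' * w' := mul_le_mul hjj hww hw0.le hj0'.le
  have hiw0 : 0 < i * w := mul_pos hi0 hw0
  have hiw0' : 0 < i' * w' := mul_pos hi0' hw0'
  have hww0 : 0 < w * w' := mul_pos hw0 hw0'
  have hi1w : (i - 1) * w ≤ (i' - 1) * w' := mul_le_mul (by linarith) hww hw0.le (by linarith)
  have hjw18 : 18 ≤ j * w := by nlinarith
  have hA : i * w / (i * w + 1) ≤ i' * w' / (i' * w' + 1) := by
    rw [div_le_div_iff₀ (by positivity) (by positivity)]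
    nlinarith
  have hB : (j * w - 1) / (w * (j + 1)) ≤ (j' * w' - 1) / (w' * (j' + 1)) := by
    rw [div_le_div_iff₀ (by positivity) (by positivity)]
    have h1 : 0 ≤ w * w' * (j' - j) := mul_nonneg hww0.le (by linarith)
    nlinarith
  have hC : (i - 1) * w / (i * w + 2) ≤ (i' - 1) * w' / (i' * w' + 2) := by
    rw [div_le_div_iff₀ (by positivity) (by positivity)]
    have h1 : 0 ≤ w * w' * (i' - i) := mul_nonneg hww0.le (by linarith)
    nlinarith
  have hD : (j * w - 2) / (w * (j + 2)) ≤ (j' * w' - 2) / (w' * (j' + 2)) := by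
    rw [div_le_div_iff₀ (by positivity) (by positivity)]
    have h1 : 0 ≤ w * w' * (j' - j) := mul_nonneg hww0.le (by linarith)
    nlinarith
  have hB0 : 0 ≤ (j * w - 1) / (w * (j + 1)) := div_nonneg (by linarith) (by positivity)
  have hD0 : 0 ≤ (j * w - 2) / (w * (j + 2)) := div_nonneg (by linarith) (by positivity)
  have hA0 : 0 ≤ i * w / (i * w + 1) := by positivity
  have hC0 : 0 ≤ (i - 1) * w / (i * w + 2) :=
    div_nonneg (mul_nonneg (by linarith) hw0.le) (by positivity)
  exact mul_le_mul (mul_le_mul hA hB hB0 (hA0.trans hA)) (mul_le_mul hC hD hD0 (hC0.trans hC))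
    (mul_nonneg hC0 hD0) (mul_nonneg (hA0.trans hA) (hB0.trans hB))

end Pool.Agent.helper61.NK
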